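import Pool.Agent.Run7.h91.RN.Low

set_option autoImplicit false

/-!
# The number of truncated clique lattices which are not determined by any `m` of their cards

`T(H)` is the set of nonempty cliques of `H` ordered by inclusion.  `AnyCardsDetermine m H`: whatever `m` cards (maximal
filter deleted subsets at `m` vertices) of `T(H)` are given, they determine `T(H)`.  For almost all graphs this holds for
`m = 3`.  We find the order of magnitude of the exponent of the number of exceptions: for all `3 ≤ m < n / 2`, the number of
the graphs `H` on `n` labelled vertices for which some `m` cards do not determine `T(H)` is between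
`2 ^ (C(n,2) - 2 m n)` and `2 ^ (C(n,2) - c m n)`, with `c = 1 / 48` for `m ≤ n / 4000`. So for a random graph the
probability that the adversary reconstruction number is larger than `m` is `2 ^ (-Θ(m n))`, uniformly in `m`.

Proof of the upper bound.  Outside of a set of `2 ^ (C(n,2) - c m n)` graphs all isomorphisms between two subgraphs of `H`
with `n - 2` vertices fix all vertices outside of a set `B` with less than `m / 2` elements: the moved vertices are few, so
they have near twins, and graphs with many independent pairs of near twins are rare. Let `v_1, …, v_t` be more than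
`max(|B|, 2)` vertices outside of `B` at which `G` and `H` have isomorphic cards. The isomorphisms `G - v_i ≅ H - v_i` are,
after a relabelling, permutations `β_i` of `B`. If none of them is an isomorphism of `G` and `H` then the function
`h_i : x ↦ (x adjacent to v_i in H)` on `B` is invariant under all `β_j β_1⁻¹` with `j ≠ i`, and not under `β_i β_1⁻¹`; so
the functions `h_i`, `i > 1`, and the constant function are linearly independent and `t ≤ |B|`.

Lower bound: graphs with `2 m` vertices of two types, with `m` vertices of each type in `H` and `m + 1` and `m - 1` in `G`.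
-/

namespace Pool.Agent.Results.MP_552896_co.AnyFewCards

/-- The card of `T(G)` at `v` and the card of `T(H)` at `w` are isomorphic: the nonempty cliques
of `G` avoiding `v` and the nonempty cliques of `H` avoiding `w`, both ordered by inclusion, are
isomorphic ordered sets. -/
def SameCard {V W : Type} (G : SimpleGraph V) (v : V) (H : SimpleGraph W) (w : W) : Prop :=
  Nonempty ({s : Finset V // s.Nonempty ∧ G.IsClique (s : Set V) ∧ v ∉ s} ≃o
    {t : Finset W // t.Nonempty ∧ H.IsClique (t : Set W) ∧ w ∉ t})

/-- `T(G)` and `T(H)` are isomorphic ordered sets. -/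
def SameLattice {V W : Type} (G : SimpleGraph V) (H : SimpleGraph W) : Prop :=
  Nonempty ({s : Finset V // s.Nonempty ∧ G.IsClique (s : Set V)} ≃o
    {t : Finset W // t.Nonempty ∧ H.IsClique (t : Set W)})

/-- Any `m` cards of `T(H)` determine `T(H)`: for every set `U` of at least `m` vertices of `H`, every truncated clique
lattice `T(G)` of a finite graph `G` which has, at different vertices `f v`, cards isomorphic to the cards of `T(H)` at
all `v` in `U`, is isomorphic to `T(H)`. -/
def AnyCardsDetermine (m : ℕ) {V : Type} (H : SimpleGraph V) : Prop :=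
  ∀ U : Finset V, m ≤ U.card → ∀ (W : Type) [Fintype W] (G : SimpleGraph W) (f : V → W),
    (∀ x ∈ U, ∀ y ∈ U, f x = f y → x = y) → (∀ v ∈ U, SameCard H v G (f v)) → SameLattice H G

/-- The number of the graphs `H` on `n` labelled vertices such that some `m` cards do not determine `T(H)`. -/
noncomputable def exceptions (n m : ℕ) : ℕ := {H : SimpleGraph (Fin n) | ¬ AnyCardsDetermine m H}.ncard

/-- **Theorem.** For all large `n`, all `m ≥ 3` with `2 m < n`: there are at least `2 ^ (C(n,2) - 2 m n)` and at most
`2 ^ (C(n,2) - m n / 400000)` exceptions, and at most `2 ^ (C(n,2) - m n / 48)` if `m ≤ n / 4000`. -/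
theorem result : ∃ n₀ : ℕ, ∀ n : ℕ, n₀ ≤ n → ∀ m : ℕ, 3 ≤ m → 2 * m < n →
    (2 : ℝ) ^ ((n.choose 2 : ℝ) - 2 * m * n) ≤ exceptions n m ∧
    (exceptions n m : ℝ) ≤ 2 ^ ((n.choose 2 : ℝ) - m * n / 400000) ∧
    (4000 * m ≤ n → (exceptions n m : ℝ) ≤ 2 ^ ((n.choose 2 : ℝ) - m * n / 48)) := by
  obtain ⟨n₀, h⟩ := Pool.Agent.Run7.h91.RN.upper
  refine ⟨max n₀ 12000, fun n hn m hm hmn => ⟨?_, ?_, ?_⟩⟩
  · exact Pool.Agent.Run7.h91.RN.lower (by omega) (by omega)
  · by_cases h4 : 4000 * m ≤ n
    · refine (h n ((le_max_left _ _).trans hn) m hm h4).trans ?_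
      apply Real.rpow_le_rpow_of_exponent_le (by norm_num)
      have : (0 : ℝ) ≤ (m : ℝ) * n := by positivity
      linarith
    · have hn2 : 12000 ≤ n := (le_max_right _ _).trans hn
      obtain ⟨k, hk⟩ : ∃ k, k = n / 4000 := ⟨_, rfl⟩
      have hmono : exceptions n m ≤ exceptions n k := by
        apply Set.ncard_le_ncard _ (Set.toFinite _)
        intro H hH hd
        exact hH (fun U hU => hd U (by omega))
      have h5 := h n ((le_max_left _ _).trans hn) k (by omega) (by omega)
      have h6 : (exceptions n m : ℝ) ≤ exceptions n k := by exact_mod_cast hmono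
      refine (h6.trans h5).trans ?_
      apply Real.rpow_le_rpow_of_exponent_le (by norm_num)
      have h7 : (m : ℝ) ≤ 8000 * k := by
        have : m ≤ 8000 * k := by omega
        exact_mod_cast this
      have h8 := mul_le_mul_of_nonneg_right h7 (Nat.cast_nonneg n)
      have h9 : (0 : ℝ) ≤ (k : ℝ) * n := by positivity
      linarith
  · intro h4
    exact h n ((le_max_left _ _).trans hn) m hm h4

end Pool.Agent.Results.MP_552896_co.AnyFewCards
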