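import Pool.Agent.Run7.h202.RP.Asm3
import Pool.Agent.Run7.h637.RP.DET
import Pool.Agent.Run7.h637.RP.SPARSE
import Pool.Agent.Run7.h909.RP.MOV
import Pool.Agent.Run7.h569.RP.STAR
import Pool.Agent.Run7.h271.RP.BIP
import Pool.Agent.Run7.h404.RP.COD
import Pool.Agent.Run7.h404.RP.DLIGHT
import Pool.Agent.Run7.h404.RP.ISO
import Pool.Agent.Run7.h705.RP.JOINT
import Pool.Agent.Run7.h705.RP.T0
import Pool.Agent.Run7.h626.RP.T1
import Pool.Agent.Run7.h626.RP.T2
import Pool.Agent.Run7.h898.RP.ORD
import Pool.Agent.Run7.h689.RP.MID

/-!
# All graphs of the random graph process are reconstructible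

`T(G)` is the set of the nonempty cliques of `G` ordered by inclusion.  Order the `n (n - 1) / 2`
pairs of different elements of `{0, …, n - 1}` at random and add them one after the other as edges
to the empty graph: this is the random graph process, a sequence of graphs with `m = 0, 1, 2, …`
edges, from the empty to the complete graph.

Theorem.  For all large `n`:

1. with probability at least `1 - n ^ (-1/7)` the truncated clique lattices `T(G)` of ALL the graphs
   `G` of the process are reconstructible from their decks;
2. for EVERY `m` all but a share `n ^ (-1/7)` of the graphs with `n` vertices and `m` edges have a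
   reconstructible `T(G)`;
3. for EVERY `p` the random graph `G(n, p)` has a reconstructible `T(G)` with probability at least
   `1 - n ^ (-1/7)`.

The starting file `IndependentEdges` contains the range `(n - 1) p (1 - p) ≥ 72 log n + 1` of 3.
New is the sparse range, above all the neighbourhood of the threshold `log n / n` of connectivity,
where the random graph has many vertices of small degree, which are moved by near-automorphisms, and
the number of the near-automorphisms is not controlled by the degrees; and that no single graph of
the process is an exception.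

Proof (project RP).  Up to `m ≈ n log n / 16` edges there is an isolated vertex.  From there on to
`p = 400 log n / n`: no near-automorphism moves a linear number of vertices (the moved edges are
determined by the others, entropy against `p ^ (number of the edges)`); a vertex which is not light
(degree at least `log n / 1000`) has few light neighbours and few common neighbours with any other
vertex, so that the set of all the moved vertices which are not light spans many edges, which is
impossible for small sets.  So all vertices which are not light are fixed by all near-automorphisms,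
and they are more than half of all the vertices.  Then the middle range, up to `p = 1 / 2`, by a
union bound with the error `n ^ (-8)`, which allows the sum over all `m`; complements.

Proof in Lean by helpers 202 (assembly), 637 (DET, SPARSE), 909 (MOV), 569 (STAR),
271 (BIP), 404 (COD, DLIGHT, ISO), 705 (JOINT, T0), 626 (T1, T2), 898 (ORD), 689 (MID),
644 (second copy of ISO).
-/

set_option autoImplicit false

namespace Pool.Agent.Results.MP_552896_co.RandomGraphProcess

/-- The card of `T(G)` at `v` and the card of `T(H)` at `w` are isomorphic: the nonempty cliques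
of `G` avoiding `v` and the nonempty cliques of `H` avoiding `w`, both ordered by inclusion, are
isomorphic ordered sets. -/
def SameCard {V W : Type} (G : SimpleGraph V) (v : V) (H : SimpleGraph W) (w : W) : Prop :=
  Nonempty ({s : Finset V // s.Nonempty ∧ G.IsClique (s : Set V) ∧ v ∉ s} ≃o
    {t : Finset W // t.Nonempty ∧ H.IsClique (t : Set W) ∧ w ∉ t})

/-- `T(G)` and `T(H)` are isomorphic ordered sets. -/
def SameLattice {V W : Type} (G : SimpleGraph V) (H : SimpleGraph W) : Prop :=
  Nonempty ({s : Finset V // s.Nonempty ∧ G.IsClique (s : Set V)} ≃o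
    {t : Finset W // t.Nonempty ∧ H.IsClique (t : Set W)})

/-- `T(G)` is reconstructible from its deck of maximal filter deleted subsets: every truncated
clique lattice `T(H)` of a finite graph `H` with the same deck is isomorphic to `T(G)`. -/
def Reconstructible {V : Type} (G : SimpleGraph V) : Prop :=
  ∀ (W : Type) [Fintype W] (H : SimpleGraph W),
    (∃ f : V ≃ W, ∀ v : V, SameCard G v H (f v)) → SameLattice G H

/-- The pairs of different vertices from `{0, …, n - 1}`. -/
abbrev Pair (n : ℕ) := {e : Sym2 (Fin n) // ¬ e.IsDiag}

/-- The orderings of the `n (n - 1) / 2` pairs of different vertices. -/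
abbrev Ordering (n : ℕ) := Fin (n.choose 2) ≃ Pair n

/-- The graph whose edges are the first `m` pairs. -/
def stage {n : ℕ} (σ : Ordering n) (m : ℕ) : SimpleGraph (Fin n) :=
  SimpleGraph.fromEdgeSet {e | ∃ i : Fin (n.choose 2), i.val < m ∧ (σ i : Sym2 (Fin n)) = e}

open Classical in
/-- The probability of the graph `H` in the model `G(n, p)`, in which the pairs of different
vertices are edges independently with probability `p`. -/
noncomputable def prob {n : ℕ} (p : ℝ) (H : SimpleGraph (Fin n)) : ℝ :=
  ∏ e ∈ Finset.univ.filter (fun e : Sym2 (Fin n) => ¬ e.IsDiag),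
    if e ∈ H.edgeSet then p else 1 - p

/-- the instance of decidability of equality does not matter -/
theorem P_inst {n : ℕ} (d d' : DecidableEq (Fin n)) (p : ℝ) (Q : Finset (Sym2 (Fin n)) → Prop) :
    @Pool.Agent.Run7.h202.RP.P (Fin n) _ d p Q = @Pool.Agent.Run7.h202.RP.P (Fin n) _ d' p Q := by
  have h : d = d' := Subsingleton.elim _ _
  rw [h]

open Classical in
/-- **The random graph process.** For all large `n`: (1) at most the share `n ^ (-1/7)` of the
orderings of the pairs contain, for some `m`, a graph of the first `m` pairs for which `T(G)` is not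
reconstructible; (2) for every `m ≤ n (n - 1) / 2` the share of the graphs `G` with `m` edges for
which `T(G)` is not reconstructible is at most `n ^ (-1/7)`; (3) for every `p` the probability that
`T(G)` is not reconstructible is at most `n ^ (-1/7)` for the random graph `G(n, p)`. -/
theorem result : ∃ n₀ : ℕ, ∀ n : ℕ, n₀ ≤ n →
    (({σ : Ordering n | ∃ m, m ≤ n.choose 2 ∧ ¬ Reconstructible (stage σ m)}.ncard : ℝ) ≤
      1 / (n : ℝ) ^ (1 / 7 : ℝ) * Nat.card (Ordering n)) ∧
    (∀ m, m ≤ n.choose 2 →
      ({G : SimpleGraph (Fin n) | G.edgeSet.ncard = m ∧ ¬ Reconstructible G}.ncard : ℝ) ≤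
        1 / (n : ℝ) ^ (1 / 7 : ℝ) * {G : SimpleGraph (Fin n) | G.edgeSet.ncard = m}.ncard) ∧
    (∀ p : ℝ, 0 ≤ p → p ≤ 1 →
      ∑ H ∈ Finset.univ.filter (fun H : SimpleGraph (Fin n) => ¬ Reconstructible H), prob p H ≤
        1 / (n : ℝ) ^ (1 / 7 : ℝ)) := by
  open Pool.Agent.Run7.h202.RP in
  obtain ⟨n₀, h⟩ := Filter.eventually_atTop.1 (goal Pool.Agent.Run7.h404.RP.t_COD
    (Pool.Agent.Run7.h569.RP.t_STAR Run7.h705.RP.t_JOINT) Pool.Agent.Run7.h637.RP.t_SPARSE
    (Pool.Agent.Run7.h271.RP.t_BIP Run7.h705.RP.t_JOINT) Run7.h909.RP.t_MOV
    Pool.Agent.Run7.h637.RP.t_DET Pool.Agent.Run7.h404.RP.t_DLIGHT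
    Pool.Agent.Run7.h689.RP.t_MID Pool.Agent.Run7.h404.RP.t_ISO Run7.h705.RP.t_T0
    (Run7.h626.RP.t_T1 Run7.h705.RP.t_T0) (Run7.h626.RP.t_T2 Run7.h705.RP.t_T0)
    Run7.h898.RP.t_ORD)
  refine ⟨n₀, fun n hn => ?_⟩
  obtain ⟨h1, h2, h3⟩ := Pool.Agent.Run7.h202.RP.final (h n hn)
  refine ⟨h1, fun m hm => ?_, fun p hp0 hp1 => ?_⟩
  · refine (h2 m hm).trans (le_of_eq ?_)
    congr 1
    have e := Pool.Agent.Run7.h202.RP.ncard_graphs (V := Fin n) m (fun _ => True)
    have e1 : {G : SimpleGraph (Fin n) | G.edgeSet.ncard = m ∧ True} =
        {G : SimpleGraph (Fin n) | G.edgeSet.ncard = m} := by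
      ext G
      simp
    rw [e1, Finset.filter_true, Finset.card_powersetCard, Pool.Agent.Run7.h202.RP.cp] at e
    rw [e]
  · have hR : ∀ H : SimpleGraph (Fin n),
        Reconstructible H ↔ Pool.Agent.H234RC.Reconstructible H := fun H => Iff.rfl
    have e : ∑ H ∈ Finset.univ.filter (fun H : SimpleGraph (Fin n) =>
        ¬ Pool.Agent.H234RC.Reconstructible H), Pool.Agent.Y395.RW.prob (fun _ => p) H =
        Pool.Agent.Run7.h202.RP.P (V := Fin n) p
          (fun F => ¬ Pool.Agent.H234RC.Reconstructible (Pool.Agent.Y395.RS.gr F)) := by
      have e2 := Pool.Agent.Y395.RW.sum_prob (V := Fin n) (fun _ => p)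
        (fun H => ¬ Pool.Agent.H234RC.Reconstructible H)
      refine Eq.trans ?_ (e2.trans (P_inst (fun a b => Classical.propDecidable (a = b)) _ p _))
      apply Finset.sum_congr
      · ext H
        simp only [Finset.mem_filter, Finset.mem_univ, true_and]
      · intro H _
        rfl
    refine le_trans (le_of_eq ?_) (h3 p hp0 hp1)
    rw [← e]
    apply Finset.sum_congr
    · ext H
      rw [Finset.mem_filter, Finset.mem_filter, hR H]
    · intro H _
      unfold prob Pool.Agent.Y395.RW.prob
      apply Finset.prod_congr
      · ext e
        simp only [Finset.mem_filter, Finset.mem_univ, true_and]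
      · intro e _
        rfl

end Pool.Agent.Results.MP_552896_co.RandomGraphProcess
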