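import Pool.Agent.Run7.h766.BU.All

set_option autoImplicit false

/-!
# Graphs obtained by substituting graphs for the vertices of a graph

`T(G)` is the set of nonempty cliques of `G` ordered by inclusion. Let `G` have the quotient `Q`:
the vertices of `G` are partitioned into modules `V_i`, one for every vertex `i` of `Q` (the
*classes*), and two vertices in different classes are adjacent if and only if the corresponding
vertices of `Q` are. So `G` arises from `Q` by substituting the graph `G[V_i]` for the vertex `i`.
Let `Q` have at least three vertices and `G` more vertices than `Q`.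

Condition (C): no graph with at least two vertices is isomorphic both to the graph induced by a
module of a vertex-deleted subgraph `Q - v` of `Q` and to an induced subgraph of a class. If all
classes are complete or edgeless, this holds if in no `Q - v` there are two vertices with the same
neighbours (or closed neighbours); it also holds if every `Q - v` is prime and no class has an
induced subgraph isomorphic to some `Q - v`.

`Q` is called *rigid* if no graph different from `Q` which is isomorphic to `Q` differs from `Q`
only in the adjacencies of one vertex. For instance `Q` is rigid if no two vertices of `Q` have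
degrees which differ by exactly one.

**Theorem.** `T(G)` and `T` of the complement of `G` are reconstructible in each of the following
cases.

(1) `Q` has at least five vertices and is rigid, and `Q` and all `Q - v` are prime. There is no
    condition on the classes. Examples of such graphs `Q`: all prime regular graphs with prime
    vertex-deleted subgraphs, such as the cycles of length at least five.

(2) Some class consists of one vertex, `p` is the corresponding vertex of `Q`, and every graph
    which is isomorphic to `Q` and differs from `Q` only in the adjacencies of `p` is isomorphic to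
    `Q` by an isomorphism which preserves the isomorphism types of the classes; and (C) holds, or
    `Q` and `Q - p` are prime and `G` has at least three vertices more than `Q`.

(3) (C) holds, any two vertices of `Q` are distinguished by a third one, and `Q` is rigid.

(4) Any two vertices of `Q` are distinguished by a third one, no two vertices of `Q` have degrees
    which differ by exactly one (for instance `Q` is regular), and all classes are complete or
    edgeless (of arbitrary sizes).

The cases of one class with two vertices (`G` is `Q` with one vertex doubled), and of classes of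
arbitrary sizes which satisfy no condition on their number, are included.

The proof. Let `H` be hypomorphic to `G`, `x` a vertex of a smallest class and `H - x` isomorphic to
`G - x`. By Kelly's lemma the number of the copies of `Q` through `x` is the same in `G` and `H`.
By (C) a copy of `Q` through `x` in `H` contains at most one vertex of every class of `G - x`, and a
comparison of the numbers shows that `x` together with any transversal of the other classes induces
a copy of `Q` in `H`. As these have the same number of edges, `x` does not distinguish the vertices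
of a class. If the smallest class has more than one vertex, one counts in the same way the copies of
the graph which arises from `Q` by substituting the smallest class only. In case (1) there remain
the graphs with at least three vertices more than `Q`; there `H` has the quotient `Q`, too
(recognition of prime quotients), and one uses the cards at the classes with one vertex, and the
multiset of the classes if there are none.
-/

namespace Pool.Agent.Results.MP_552896_co.SubstitutionGraphs

/-- The truncated clique lattices of `G` and `H` have the same deck of maximal filter deleted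
subsets: some bijection `f` of the vertex sets is such that, for every vertex `v`, the nonempty
cliques of `G` avoiding `v` and the nonempty cliques of `H` avoiding `f v`, both ordered by
inclusion, are isomorphic ordered sets. -/
def SameDeck {V W : Type} (G : SimpleGraph V) (H : SimpleGraph W) : Prop :=
  ∃ f : V ≃ W, ∀ v : V,
    Nonempty ({s : Finset V // s.Nonempty ∧ G.IsClique (s : Set V) ∧ v ∉ s} ≃o
      {t : Finset W // t.Nonempty ∧ H.IsClique (t : Set W) ∧ f v ∉ t})

/-- `T(G)` is reconstructible from its deck: every truncated clique lattice `T(H)` of a finite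
graph `H` with the same deck is isomorphic to `T(G)`. -/
def Reconstructible {V : Type} (G : SimpleGraph V) : Prop :=
  ∀ (W : Type) [Fintype W] (H : SimpleGraph W), SameDeck G H →
    Nonempty ({s : Finset V // s.Nonempty ∧ G.IsClique (s : Set V)} ≃o
      {t : Finset W // t.Nonempty ∧ H.IsClique (t : Set W)})

/-- `G` arises from `Q` by substituting graphs for the vertices: the class of the vertex `i` of `Q`
is the nonempty set of the vertices `x` of `G` with `c x = i`, and vertices in different classes are
adjacent in `G` if and only if the corresponding vertices are adjacent in `Q`. -/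
def HasQuotient {V K : Type} (G : SimpleGraph V) (Q : SimpleGraph K) (c : V → K) : Prop :=
  Function.Surjective c ∧ ∀ x y : V, c x ≠ c y → (G.Adj x y ↔ Q.Adj (c x) (c y))

/-- Prime graphs: at least three vertices, and every module (a set such that no vertex outside it
distinguishes two vertices of it) has at most one vertex or contains all vertices. -/
def IsPrime {K : Type} (Q : SimpleGraph K) : Prop :=
  3 ≤ Nat.card K ∧ ∀ N : Set K, (∀ z, z ∉ N → ∀ a ∈ N, ∀ b ∈ N, (Q.Adj z a ↔ Q.Adj z b)) →
    N.Subsingleton ∨ N = Set.univ

/-- Condition (C): if a set `N` with at least two elements is a module of the graph obtained from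
`Q` by deleting a vertex `v`, then the graph induced by `N` is not isomorphic to an induced subgraph
of a class. -/
def NoCommonModule {V K : Type} (G : SimpleGraph V) (Q : SimpleGraph K) (c : V → K) : Prop :=
  ∀ (v : K) (N : Set K), v ∉ N → N.Nontrivial →
    (∀ z, z ≠ v → z ∉ N → ∀ a ∈ N, ∀ b ∈ N, (Q.Adj z a ↔ Q.Adj z b)) →
    ∀ i : K, IsEmpty (Q.induce N ↪g G.induce {x | c x = i})

/-- Any two vertices are distinguished by a third one. -/
def TwinFree {K : Type} (Q : SimpleGraph K) : Prop :=
  ∀ i j : K, i ≠ j → ∃ z, z ≠ i ∧ z ≠ j ∧ ¬ (Q.Adj z i ↔ Q.Adj z j)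

/-- `R` differs from `Q` only in the adjacencies of `p`. -/
def DiffersOnlyAt {K : Type} (Q R : SimpleGraph K) (p : K) : Prop :=
  ∀ a b : K, a ≠ p → b ≠ p → (R.Adj a b ↔ Q.Adj a b)

/-- `Q` is rigid: no graph different from `Q` which is isomorphic to `Q` differs from `Q` only in
the adjacencies of one vertex. -/
def IsRigid {K : Type} (Q : SimpleGraph K) : Prop :=
  ∀ (j : K) (R : SimpleGraph K), DiffersOnlyAt Q R j → Nonempty (R ≃g Q) → R = Q

/-- Every graph `R` which is isomorphic to `Q` and differs from `Q` only in the adjacencies of `p`
is isomorphic to `Q` by an isomorphism which preserves the isomorphism types of the classes. -/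
def UniqueAt {V K : Type} (G : SimpleGraph V) (Q : SimpleGraph K) (c : V → K) (p : K) : Prop :=
  ∀ R : SimpleGraph K, DiffersOnlyAt Q R p → Nonempty (R ≃g Q) →
    ∃ ψ : R ≃g Q, ∀ i : K, Nonempty (G.induce {y | c y = i} ≃g G.induce {y | c y = ψ i})

open Pool.Agent.Run7.h766.MD Pool.Agent.Run7.h766.BU

theorem st_of {V K : Type} [Fintype V] [Fintype K] {G : SimpleGraph V} {Q : SimpleGraph K}
    {c : V → K} (h : HasQuotient G Q c) : St G Finset.univ c Q :=
  ⟨fun x _ y _ hxy => h.2 x y hxy, fun k => by
    obtain ⟨x, hx⟩ := h.1 k
    exact ⟨x, Finset.mem_univ _, hx⟩⟩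

theorem pr_of {K : Type} [Fintype K] {Q : SimpleGraph K} (h : IsPrime Q) : Pr Q := by
  refine ⟨by rw [← Nat.card_eq_fintype_card]; exact h.1, fun M hM => ?_⟩
  rcases h.2 (↑M) (fun z hz a ha b hb => hM.2 z (Finset.mem_univ _) (fun hz' => hz hz') a ha b hb)
    with h1 | h1
  · left
    exact Finset.card_le_one.mpr (fun a ha b hb => h1 ha hb)
  · right
    exact Finset.coe_eq_univ.mp h1

theorem cc_of {V K : Type} [Fintype V] [Fintype K] {G : SimpleGraph V} {Q : SimpleGraph K}
    {c : V → K} (h : NoCommonModule G Q c) : CC G Q c := by
  rintro v N hv hN hmod ⟨f, hf, hfc, hfa⟩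
  obtain ⟨a0, ha0, b0, hb0, hab⟩ := Finset.one_lt_card.mp (by omega : 1 < N.card)
  refine (h v ↑N (fun h' => hv h') ⟨a0, ha0, b0, hb0, hab⟩
    (fun z hz hzN a ha b hb => hmod z hz (fun h' => hzN h') a ha b hb) (c (f a0))).false ?_
  refine ⟨⟨fun a => ⟨f a.1, hfc a.1 a.2 a0 ha0⟩, ?_⟩, ?_⟩
  · intro a b hab'
    exact Subtype.ext (hf a.1 a.2 b.1 b.2 (congrArg Subtype.val hab'))
  · intro a b
    exact hfa a.1 a.2 b.1 b.2

open Classical in
theorem ty_of {V K : Type} [Fintype V] [Fintype K] {G : SimpleGraph V} {c : V → K} (i j : K)
    (h : Nonempty (G.induce {y | c y = i} ≃g G.induce {y | c y = j})) :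
    ty (fb c i) G = ty (fb c j) G := by
  obtain ⟨e⟩ := h
  rw [ty_eq]
  let e' : {y // c y = i} ≃ {y // c y = j} := e.toEquiv
  have hex : ∀ a (ha : c a = i), e'.extendSubtype a = (e' ⟨a, ha⟩).1 := fun a ha =>
    Equiv.extendSubtype_apply_of_mem e' a ha
  refine ⟨e'.extendSubtype, fun x => ?_, fun a ha b hb => ?_⟩
  · show e'.extendSubtype x ∈ fb c j ↔ x ∈ fb c i
    rw [mem_fb, mem_fb]
    constructor
    · intro h1
      by_contra h2
      exact Equiv.extendSubtype_not_mem e' x h2 h1
    · intro h1
      exact Equiv.extendSubtype_mem e' x h1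
  · have ha' : c a = i := (mem_fb _ _).mp ha
    have hb' : c b = i := (mem_fb _ _).mp hb
    show G.Adj (e'.extendSubtype a) (e'.extendSubtype b) ↔ G.Adj a b
    rw [hex a ha', hex b hb']
    exact e.map_rel_iff' (a := ⟨a, ha'⟩) (b := ⟨b, hb'⟩)

theorem uni_of {V K : Type} [Fintype V] [Fintype K] {G : SimpleGraph V} {Q : SimpleGraph K}
    {c : V → K} {p : K} (h : UniqueAt G Q c p) : ∀ Q2 : SimpleGraph K, Ag Q Q2 p →
      (∃ φ : Equiv.Perm K, ∀ i j, (Q2.Adj (φ i) (φ j) ↔ Q.Adj i j)) →
      ∃ ψ : Equiv.Perm K, (∀ i j, (Q2.Adj (ψ i) (ψ j) ↔ Q.Adj i j)) ∧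
        ∀ k, ty (fb c k) G = ty (fb c (ψ k)) G := by
  rintro Q2 hA ⟨φ, hφ⟩
  obtain ⟨ψ, hψ⟩ := h Q2 hA ⟨⟨φ.symm, by
    intro a b
    have := hφ (φ.symm a) (φ.symm b)
    rw [Equiv.apply_symm_apply, Equiv.apply_symm_apply] at this
    exact this.symm⟩⟩
  refine ⟨ψ.symm.toEquiv, fun i j => ?_, fun k => ?_⟩
  · exact ψ.symm.map_rel_iff'
  · have := hψ (ψ.symm k)
    rw [RelIso.apply_symm_apply] at this
    exact (ty_of _ _ this).symm

theorem dg_of {K : Type} [Fintype K] (Q : SimpleGraph K) (i : K) :
    dg Q i = {k | Q.Adj i k}.ncard := by
  unfold dg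
  rw [← Set.ncard_coe_finset]
  congr 1
  ext k
  simp

open Classical in
theorem prime_of {V K : Type} [Fintype V] [Fintype K] {G : SimpleGraph V} {Q : SimpleGraph K}
    {c : V → K} (hc : HasQuotient G Q c) (hn : Fintype.card K + 3 ≤ Fintype.card V)
    (hQ : IsPrime Q) (x : V) (hx : ∀ y, c y = c x → y = x)
    (hQ1 : IsPrime (Q.induce {k | k ≠ c x})) (hU : UniqueAt G Q c (c x)) :
    Pool.Agent.H234RC.Reconstructible G ∧ Pool.Agent.H234RC.Reconstructible Gᶜ :=
  fin_prime hn (pr_of hQ) (st_of hc) x hx (pr_of hQ1) (uni_of hU)

theorem rig_of {K : Type} {Q : SimpleGraph K} (hR : IsRigid Q) :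
    ∀ (j : K) (Q2 : SimpleGraph K), Ag Q Q2 j →
      (∃ φ : Equiv.Perm K, ∀ i j, (Q2.Adj (φ i) (φ j) ↔ Q.Adj i j)) →
      ∀ i, (Q2.Adj j i ↔ Q.Adj j i) := by
  rintro j Q2 hA ⟨φ, hφ⟩ i
  have := hR j Q2 hA ⟨⟨φ.symm, by
    intro a b
    have := hφ (φ.symm a) (φ.symm b)
    rw [Equiv.apply_symm_apply, Equiv.apply_symm_apply] at this
    exact this.symm⟩⟩
  rw [this]

open Classical in
theorem all_of {V K : Type} [Fintype V] [Fintype K] {G : SimpleGraph V} {Q : SimpleGraph K}
    {c : V → K} (hc : HasQuotient G Q c) (h5 : 5 ≤ Fintype.card K)
    (hlt : Fintype.card K < Fintype.card V) (hQ : IsPrime Q)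
    (hQ1 : ∀ p : K, IsPrime (Q.induce {k | k ≠ p})) (hR : IsRigid Q) :
    Pool.Agent.H234RC.Reconstructible G ∧ Pool.Agent.H234RC.Reconstructible Gᶜ :=
  fin_all h5 hlt (st_of hc) (pr_of hQ) (fun p => pr_of (hQ1 p)) (rig_of hR)

/-- Let `G` have the quotient `Q`, where `Q` has at least three vertices and `G` has more vertices
than `Q`. Then `T(G)` and `T(Gᶜ)` are reconstructible in each of the following cases.
(1) `Q` has at least five vertices, `Q` and all its vertex-deleted subgraphs are prime, and `Q` is
rigid.
(2) The class of a vertex `x` is `{x}`, every graph which is isomorphic to `Q` and differs from `Q`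
only in the adjacencies of `c x` is isomorphic to `Q` by an isomorphism which preserves the
isomorphism types of the classes, and either (C) holds, or `Q` and `Q` without `c x` are prime and
`G` has at least three vertices more than `Q`.
(3) (C) holds, any two vertices of `Q` are distinguished by a third one, and `Q` is rigid.
(4) Any two vertices of `Q` are distinguished by a third one, no two vertices of `Q` have degrees
which differ by exactly one, and all classes are complete or edgeless. -/
theorem result (V K : Type) [Fintype V] [Fintype K] (G : SimpleGraph V) (Q : SimpleGraph K)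
    (c : V → K) (hc : HasQuotient G Q c) (h3 : 3 ≤ Fintype.card K)
    (hlt : Fintype.card K < Fintype.card V)
    (h : (5 ≤ Fintype.card K ∧ IsPrime Q ∧ (∀ p : K, IsPrime (Q.induce {k | k ≠ p})) ∧
        IsRigid Q) ∨
      (∃ x : V, (∀ y, c y = c x → y = x) ∧ UniqueAt G Q c (c x) ∧
        (NoCommonModule G Q c ∨ (IsPrime Q ∧ IsPrime (Q.induce {k | k ≠ c x}) ∧
          Fintype.card K + 3 ≤ Fintype.card V))) ∨
      (NoCommonModule G Q c ∧ TwinFree Q ∧ IsRigid Q) ∨
      (TwinFree Q ∧ (∀ i j : K, {k | Q.Adj i k}.ncard ≠ {k | Q.Adj j k}.ncard + 1) ∧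
        ∀ i : K, G.induce {y | c y = i} = ⊤ ∨ G.induce {y | c y = i} = ⊥)) :
    Reconstructible G ∧ Reconstructible Gᶜ := by
  have hS := st_of hc
  rcases h with ⟨h5, hQ, hQ1, hR⟩ | ⟨x, hx, hU, h⟩ | ⟨hC, hT, hR⟩ | ⟨hT, hD, hcl⟩
  · exact all_of hc h5 hlt hQ hQ1 hR
  · rcases h with hC | ⟨hQ, hQ1, hn⟩
    · refine Pool.Agent.TH87.RVE.rec_of G True (fun H π hH hN => ?_) trivial
      exact absurd hN (nonIso_comap (π x) (case_one hS (cc_of hC) h3 x (ag_comap hH x)
        (through_eq hH hlt x) hx (uni_of hU)))
    · exact prime_of hc hn hQ x hx hQ1 hU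
  · exact fin_two' h3 hlt hS (cc_of hC) hT (rig_of hR)
  · refine fin_three' h3 hlt hS (fun i j => ?_) hT (fun k => ?_)
    · rw [dg_of, dg_of]
      exact hD i j
    · rcases hcl k with h1 | h1
      · left
        intro x y hx hy hxy
        have h2 : (G.induce {y | c y = k}).Adj ⟨x, hx⟩ ⟨y, hy⟩ := by
          rw [h1]
          exact fun e => hxy (congrArg Subtype.val e)
        exact h2
      · right
        intro x y hx hy hxy
        have h2 : (G.induce {y | c y = k}).Adj ⟨x, hx⟩ ⟨y, hy⟩ := hxy
        rw [h1] at h2
        exact h2

end Pool.Agent.Results.MP_552896_co.SubstitutionGraphs
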