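import Pool.Agent.Run7.h357.TW.Red

set_option autoImplicit false

/-!
# The sizes of the twin classes of a graph

`T(G)` is the set of nonempty cliques of `G` ordered by inclusion. Two vertices of `G` are *twins*
if they have the same neighbours. Let `X` be a set with exactly one vertex in every class of twins,
let `size x` be the number of the vertices in the class of `x`, and let `n s` be the number of the
classes of size `s`. `G` is obtained from the graph `G[X]` induced by `X`, which has no twins, by
replacing every vertex `x` by an independent set of `size x` vertices. Nothing is assumed about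
`G[X]`; in particular it need not be prime. By an automorphism we mean an automorphism of `G[X]`.

**Theorem, part A.** If `G` has at least `|X| + 2` vertices, then `G[X]` and, for every `s` and
every set `O` of members of `X` which is invariant under all automorphisms, the number of the
members of `O` of size `s` are determined by the deck. In particular the numbers `n s` are
reconstructible.

**Theorem, part B.** `T(G)` and `T` of the complement of `G` are reconstructible in each of the
following cases. (The second assertion is the theorem for adjacent twins.)

(1) `G` has at least three vertices and `n s > n (s - 1)` for some `s ≥ 2`. For example, some size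
    `s ≥ 2` occurs and `s - 1` does not occur; or every vertex has a twin; or there are more classes
    of size two than vertices without a twin. So the numbers `n 1 ≥ n 2 ≥ n 3 ≥ ...` decrease for
    every counterexample to the reconstruction conjecture.
(2) `G` has at least four vertices and the classes have pairwise different sizes.
(3) `G` has at least `|X| + 2` vertices, and one of the following holds.
  (a) For some `s ≥ 2` and some set `O` of members of `X` which is invariant under all
      automorphisms, more members of `O` have size `s` than size `s - 1`. For example, `G[X]` has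
      no nontrivial automorphism.
  (b) For some `s ≥ 2` with `n s ≥ 2` there is such a set `O` which is only invariant under the
      automorphisms which preserve the sizes different from `s - 1` and `s`.
  (c) For some `x` with `size x ≥ 2` no `y` in `X` with `size y = size x - 1` has the degree
      `deg x` (if it is not adjacent to `x`) or `deg x + 1` (if it is adjacent to `x`).
  (d) For some set `B` of an even number of members of `X` of size at least two there is no
      automorphism `σ` such that `size (σ x) = size x - 1` for `x` in `B` and
      `size (σ x) ≥ size x` for the other `x` in `X`.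
  (e) `2 b < 2 ^ t * a`, where `t` is the number of classes with at least two members, `a` the
      number of the automorphisms which preserve the sizes, and `b` the number of the automorphisms
      `σ` with `size (σ x) ≥ size x - 1` for all `x`. For example, `G[X]` has fewer than
      `2 ^ (t - 1)` automorphisms.
  (f) For some odd prime `p` every size occurs less than `p` times and `p` consecutive sizes
      occur exactly once.

The proof. The cards at vertices with twins are the cards with the largest number of distinct
neighbourhoods; that a graph without twins cannot have the same deck follows from Bondy's theorem on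
the traces of `n` subsets of an `n`-element set. So `G[X]` and the function `size`, lowered by one
at the class of the deleted vertex, up to automorphisms of `G[X]`, are known from these cards. By
counting sums of squares the size of the class of the deleted vertex is known as well. For a
function `a` on `X` let `I(a)` be the number of the automorphisms which carry `a` below `size`. If
`a` is obtained by lowering `size` by one on a nonempty set, then `I(a)` is determined by the cards
at the largest size in this set, and inclusion and exclusion gives (a), (b), (d), (e) as in the
theorems of Lovasz, Mueller and Nash-Williams on edge reconstruction. In (f) the automorphisms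
obtained from the cards generate an automorphism which moves only `p` points, cyclically.
-/

namespace Pool.Agent.Results.MP_552896_co.TwinClasses

open Finset

/-- The truncated clique lattices of `G` and `H` have the same deck of maximal filter deleted
subsets: some bijection `f` of the vertex sets is such that, for every vertex `v`, the nonempty
cliques of `G` avoiding `v` and the nonempty cliques of `H` avoiding `f v`, both ordered by
inclusion, are isomorphic ordered sets. -/
def SameDeck {V W : Type} (G : SimpleGraph V) (H : SimpleGraph W) : Prop :=
  ∃ f : V ≃ W, ∀ v : V,
    Nonempty ({s : Finset V // s.Nonempty ∧ G.IsClique (s : Set V) ∧ v ∉ s} ≃o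
      {t : Finset W // t.Nonempty ∧ H.IsClique (t : Set W) ∧ f v ∉ t})

/-- `T(G)` is reconstructible from its deck: every truncated clique lattice `T(H)` of a finite
graph `H` with the same deck is isomorphic to `T(G)`. -/
def Reconstructible {V : Type} (G : SimpleGraph V) : Prop :=
  ∀ (W : Type) [Fintype W] (H : SimpleGraph W), SameDeck G H →
    Nonempty ({s : Finset V // s.Nonempty ∧ G.IsClique (s : Set V)} ≃o
      {t : Finset W // t.Nonempty ∧ H.IsClique (t : Set W)})

/-- `x` and `y` are twins: they have the same neighbours. -/
def Twin {V : Type} (G : SimpleGraph V) (x y : V) : Prop := ∀ z, G.Adj x z ↔ G.Adj y z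

open Classical in
/-- The size of the class of `x`: the number of the vertices with the same neighbours as `x`. -/
noncomputable def size {V : Type} [Fintype V] (G : SimpleGraph V) (x : V) : ℕ :=
  (univ.filter (fun y => Twin G x y)).card

open Classical in
/-- The degree of `x`. -/
noncomputable def deg {V : Type} [Fintype V] (G : SimpleGraph V) (x : V) : ℕ :=
  (univ.filter (fun y => G.Adj x y)).card

/-- The number of the members of `O` whose class has size `s`. -/
noncomputable def num {V : Type} [Fintype V] (G : SimpleGraph V) (O : Finset V) (s : ℕ) : ℕ :=
  (O.filter (fun x => size G x = s)).card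

/-- `X` contains exactly one vertex of every class of twins. -/
def Reps {V : Type} (G : SimpleGraph V) (X : Finset V) : Prop := ∀ v, ∃! x, x ∈ X ∧ Twin G v x

/-- The permutation `σ` of `X` is an automorphism of the graph induced by `X`. -/
def IsAut {V : Type} (G : SimpleGraph V) (X : Finset V) (σ : Equiv.Perm X) : Prop :=
  ∀ x y : X, G.Adj (σ x) (σ y) ↔ G.Adj x y

open Classical in
/-- The cases (1), (2), (3a), ..., (3f) of part B. -/
def Case {V : Type} [Fintype V] (G : SimpleGraph V) (X : Finset V) : Prop :=
  -- (1)
  (3 ≤ Fintype.card V ∧ ∃ s, 2 ≤ s ∧ num G X (s - 1) < num G X s) ∨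
  -- (2)
  (4 ≤ Fintype.card V ∧ ∀ s, num G X s ≤ 1) ∨
  -- (3)
  (X.card + 2 ≤ Fintype.card V ∧
    -- (a)
    ((∃ s, 2 ≤ s ∧ ∃ O ⊆ X, (∀ σ, IsAut G X σ → ∀ x : X, (x : V) ∈ O → (σ x : V) ∈ O) ∧
        num G O (s - 1) < num G O s) ∨
      -- (b)
      (∃ s, 2 ≤ s ∧ 2 ≤ num G X s ∧ ∃ O ⊆ X, (∀ σ, IsAut G X σ →
        (∀ x : X, size G (σ x) = size G x ∨
          ((size G (σ x) = s - 1 ∨ size G (σ x) = s) ∧ (size G x = s - 1 ∨ size G x = s))) →
            ∀ x : X, (x : V) ∈ O → (σ x : V) ∈ O) ∧ num G O (s - 1) < num G O s) ∨
      -- (c)
      (∃ x ∈ X, 2 ≤ size G x ∧ ∀ y ∈ X, size G y + 1 = size G x →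
        deg G y ≠ deg G x + if G.Adj x y then 1 else 0) ∨
      -- (d)
      (∃ B ⊆ X, Even B.card ∧ (∀ x ∈ B, 2 ≤ size G x) ∧ ∀ σ, IsAut G X σ →
        ¬ ((∀ x : X, (x : V) ∈ B → size G x = size G (σ x) + 1) ∧
          ∀ x : X, (x : V) ∉ B → size G x ≤ size G (σ x))) ∨
      -- (e)
      (2 * (univ.filter (fun σ : Equiv.Perm X => IsAut G X σ ∧
          ∀ x : X, size G x ≤ size G (σ x) + 1)).card <
        2 ^ (X.filter (fun x => 2 ≤ size G x)).card *
          (univ.filter (fun σ : Equiv.Perm X => IsAut G X σ ∧
            ∀ x : X, size G (σ x) = size G x)).card) ∨
      -- (f)
      (∃ p a, p.Prime ∧ 3 ≤ p ∧ (∀ s, num G X s < p) ∧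
        ∀ i, 1 ≤ i → i ≤ p → num G X (a + i) = 1)))

/-- Let `X` contain exactly one vertex of every class of twins of `G`.
(A) Suppose that `G` has at least `|X| + 2` vertices. If `T(H)` has the same deck as `T(G)` and `Y`
contains exactly one vertex of every class of twins of `H`, then there is an isomorphism `e` of
`G[X]` onto `H[Y]` such that for every set `O` of members of `X` which is invariant under all
automorphisms of `G[X]` and every `s` the number of `x` in `O` with `size G x = s` is equal to the
number of `x` in `O` with `size H (e x) = s`.
(B) In each of the cases (1), (2), (3a), ..., (3f), `T(G)` and `T(Gᶜ)` are reconstructible. -/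
theorem result {V : Type} [Fintype V] (G : SimpleGraph V) (X : Finset V) (hX : Reps G X) :
    (X.card + 2 ≤ Fintype.card V →
      ∀ (W : Type) [Fintype W] (H : SimpleGraph W) (Y : Finset W), SameDeck G H → Reps H Y →
        ∃ e : X ≃ Y, (∀ a b : X, H.Adj (e a) (e b) ↔ G.Adj a b) ∧
          ∀ O ⊆ X, (∀ σ, IsAut G X σ → ∀ x : X, (x : V) ∈ O → (σ x : V) ∈ O) → ∀ s : ℕ,
            {x : X | (x : V) ∈ O ∧ size G x = s}.ncard =
              {x : X | (x : V) ∈ O ∧ size H (e x) = s}.ncard) ∧
    (Case G X → Reconstructible G ∧ Reconstructible Gᶜ) := by
  refine ⟨fun hbig W _ H Y hd hY => ?_, fun h => ?_⟩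
  · obtain ⟨e, he, hO⟩ := Run7.h357.TW.reduced G H hd hX hY hbig
    refine ⟨e, he, fun O hOX hinv s => ?_⟩
    have h1 := hO O hOX hinv s
    rw [← Set.ncard_coe_finset, ← Set.ncard_coe_finset] at h1
    convert h1 using 2
    · ext x
      simp only [Set.mem_ofPred_eq, coe_filter, mem_univ, true_and]
      exact Iff.rfl
    · ext x
      simp only [Set.mem_ofPred_eq, coe_filter, mem_univ, true_and]
      exact Iff.rfl
  · refine Run7.h357.TW.main G X hX ?_
    rcases h with h | ⟨h4, hn⟩ | h
    · exact Or.inl h
    · exact Run7.h357.TW.cond_of_distinct hX h4 hn
    · exact Or.inr h

end Pool.Agent.Results.MP_552896_co.TwinClasses
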